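import Pool.Agent.MalEngel.ZAsm
import Pool.Agent.ZLM.PF

/-!
Malcev algebras over a field of characteristic two which satisfy the `n`-th Engel condition are
locally nilpotent.
-/

namespace Pool.Agent.Results.MP_7edc73_al.LocallyNilpotent

open Pool.Agent.MalEngel

/-- Let `A` be a Malcev algebra over a field `F` of characteristic two which satisfies the `n`-th
Engel condition `(⋯((yx)x)⋯)x = 0` (`n` factors `x`).  Then every finitely generated subalgebra
of `A` is nilpotent. -/
theorem result {F A : Type*} [Field F] [CharP F 2] [NonUnitalNonAssocRing A] [Module F A]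
    [IsScalarTower F A A] [SMulCommClass F A A]
    (hsq : ∀ x : A, x * x = 0)
    (hmal : ∀ x y z : A, J x y (x * z) = J x y z * x)
    (n : ℕ) (hn : ∀ x y : A, ((fun w => w * x)^[n]) y = 0)
    (S : Finset A) : IsNilp (NonUnitalAlgebra.adjoin F (S : Set A)) :=
  locNilp (fun B _ _ X hX hgen m hm => Pool.Agent.ZLM.engel_lie F B X hX hgen m hm)
    ⟨hsq, hmal⟩ n hn S

end Pool.Agent.Results.MP_7edc73_al.LocallyNilpotent
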